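import Pool.Agent.Helper57.SI.Stmts

/-! Row SI of the sheet `Helper57/SI/Stmts.lean`. -/

set_option autoImplicit false

namespace Pool.Agent.Helper57.SI

open MeasureTheory Set Filter Topology
open Pool.Agent.Helper57.QZ (Pr tor circ aa Zy Wy Sy Vy Ky Fy pt lin)

theorem si57_sup {u H a b : ℝ} {f : ℝ → ℝ} (hH : 0 ≤ H) (hub : ∀ t ∈ Icc u (u + H), f t ≤ b)
    (hlb : ∃ t ∈ Icc u (u + H), a ≤ f t) : a ≤ wsup u H f ∧ wsup u H f ≤ b := by
  obtain ⟨t, ht, hat⟩ := hlb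
  have hbd : BddAbove (f '' Icc u (u + H)) := by
    refine ⟨b, ?_⟩
    rintro _ ⟨s, hs, rfl⟩
    exact hub s hs
  constructor
  · exact hat.trans (le_csSup hbd ⟨t, ht, rfl⟩)
  · refine csSup_le ⟨f t, ⟨t, ht, rfl⟩⟩ ?_
    rintro _ ⟨s, hs, rfl⟩
    exact hub s hs

theorem si57_alg {d A L a b m : ℝ} (hd0 : 0 < d) (hd1 : d ≤ 1 / 20) (hA : 0 < A) (hL : 0 < L)
    (ha1 : (1 - d) * A ≤ a) (ha2 : a ≤ (1 + d) * A)
    (hb1 : (1 - d) * A * ((1 - d) * L) ≤ b) (hb2 : b ≤ (1 + d) * A * ((1 + d) * L))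
    (hm1 : (1 - d) * L ≤ m) (hm2 : m ≤ (1 + d) * L) :
    (1 - 10 * d) * (b / a) ≤ m ∧ m ≤ (1 + 10 * d) * (b / a) ∧ |m - L| ≤ 10 * d * L := by
  have ha : 0 < a := lt_of_lt_of_le (by nlinarith) ha1
  have hq1 : (1 - 4 * d) * L ≤ b / a := by
    rw [le_div_iff₀ ha]
    have h1 : (1 - 4 * d) * L * a ≤ (1 - 4 * d) * L * ((1 + d) * A) :=
      mul_le_mul_of_nonneg_left ha2 (mul_nonneg (by linarith) hL.le)
    have h2 : (1 - 4 * d) * L * ((1 + d) * A) ≤ (1 - d) * A * ((1 - d) * L) := by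
      have : 0 < A * L := mul_pos hA hL
      nlinarith
    linarith
  have hq2 : b / a ≤ (1 + 4 * d) * L := by
    rw [div_le_iff₀ ha]
    have h1 : (1 + 4 * d) * L * ((1 - d) * A) ≤ (1 + 4 * d) * L * a :=
      mul_le_mul_of_nonneg_left ha1 (mul_nonneg (by linarith) hL.le)
    have h2 : (1 + d) * A * ((1 + d) * L) ≤ (1 + 4 * d) * L * ((1 - d) * A) := by
      have : 0 < A * L := mul_pos hA hL
      nlinarith
    linarith
  refine ⟨?_, ?_, ?_⟩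
  · calc (1 - 10 * d) * (b / a) ≤ (1 - 10 * d) * ((1 + 4 * d) * L) :=
        mul_le_mul_of_nonneg_left hq2 (by linarith)
      _ ≤ (1 - d) * L := by nlinarith
      _ ≤ m := hm1
  · calc m ≤ (1 + d) * L := hm2
      _ ≤ (1 + 10 * d) * ((1 - 4 * d) * L) := by nlinarith
      _ ≤ (1 + 10 * d) * (b / a) := mul_le_mul_of_nonneg_left hq1 (by linarith)
  · rw [abs_le]
    constructor <;> nlinarith

/-- Row SI. -/
theorem st_SI (h : ST_NT) : ST_SI := by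
  intro δ hδ
  have hd : δ / 20 ∈ Ioo (0:ℝ) 1 := ⟨by linarith [hδ.1], by linarith [hδ.2]⟩
  obtain ⟨H₀, h1⟩ := h (δ / 20) hd
  refine ⟨H₀, fun H hH => ?_⟩
  obtain ⟨hH1, hL, A, hA, T₀, hT₀, h2⟩ := h1 H hH
  refine ⟨T₀, hT₀, fun T hT => ?_⟩
  obtain ⟨E, hE1, hE2, h3⟩ := h2 T hT
  have hT0 : 0 < T := lt_of_lt_of_le hT₀ hT
  refine ⟨E, hE1, hE2.trans (by nlinarith [hδ.1]), fun u hu hu' θ => ?_⟩
  obtain ⟨hall, ⟨t₁, ht₁, hz1, hw1⟩, hθ⟩ := h3 u hu hu'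
  obtain ⟨t₂, ht₂, hw2⟩ := hθ θ
  have hd0 : 0 < δ / 20 := hd.1
  have hd1 : δ / 20 ≤ 1 / 20 := by linarith [hδ.2]
  have hL0 : 0 < Real.log (Real.log H) := by linarith
  have hH0 : 0 ≤ H := by linarith
  have hder : ∀ t ∈ Icc u (u + H), ‖deriv riemannZeta (pt 1 t)‖ =
      ‖riemannZeta (pt 1 t)‖ * ‖deriv riemannZeta (pt 1 t) / riemannZeta (pt 1 t)‖ := by
    intro t ht
    rw [← norm_mul, mul_div_cancel₀ _ (hall t ht).1]
  have s1 := si57_sup (f := fun t => ‖riemannZeta (pt 1 t)‖) hH0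
    (fun t ht => (hall t ht).2.1) ⟨t₁, ht₁, hz1⟩
  have s2 := si57_sup (f := fun t => ‖deriv riemannZeta (pt 1 t)‖) (u := u) (H := H)
    (a := (1 - δ / 20) * A * ((1 - δ / 20) * Real.log (Real.log H)))
    (b := (1 + δ / 20) * A * ((1 + δ / 20) * Real.log (Real.log H))) hH0
    (fun t ht => by
      show ‖deriv riemannZeta (pt 1 t)‖ ≤ _
      rw [hder t ht]
      exact mul_le_mul (hall t ht).2.1 (hall t ht).2.2 (norm_nonneg _) (by positivity))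
    ⟨t₁, ht₁, by
      show _ ≤ ‖deriv riemannZeta (pt 1 t₁)‖
      rw [hder t₁ ht₁]
      exact mul_le_mul hz1 hw1 (mul_nonneg (by linarith) hL0.le) (norm_nonneg _)⟩
  have s3 := si57_sup (f := fun t => (Complex.exp (-((θ : ℂ) * Complex.I)) *
      (deriv riemannZeta (pt 1 t) / riemannZeta (pt 1 t))).re) (u := u) (H := H)
    (a := (1 - δ / 20) * Real.log (Real.log H))
    (b := (1 + δ / 20) * Real.log (Real.log H)) hH0
    (fun t ht => by
      refine (Complex.re_le_norm _).trans ?_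
      rw [norm_mul, show -((θ : ℂ) * Complex.I) = ((-θ : ℝ) : ℂ) * Complex.I by push_cast; ring,
        Complex.norm_exp_ofReal_mul_I, one_mul]
      exact (hall t ht).2.2)
    ⟨t₂, ht₂, hw2⟩
  have h4 := si57_alg hd0 hd1 hA hL0 s1.1 s1.2 s2.1 s2.2 s3.1 s3.2
  have hM : 0 ≤ wsup u H (fun t => ‖deriv riemannZeta (pt 1 t)‖) /
      wsup u H (fun t => ‖riemannZeta (pt 1 t)‖) := by
    refine div_nonneg (le_trans ?_ s2.1) (le_trans ?_ s1.1)
    · exact mul_nonneg (mul_nonneg (by linarith) hA.le) (mul_nonneg (by linarith) hL0.le)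
    · exact mul_nonneg (by linarith) hA.le
  refine ⟨?_, ?_, ?_⟩
  · refine le_trans (mul_le_mul_of_nonneg_right ?_ hM) h4.1
    linarith
  · refine le_trans h4.2.1 (mul_le_mul_of_nonneg_right ?_ hM)
    linarith
  · refine h4.2.2.trans (mul_le_mul_of_nonneg_right ?_ hL0.le)
    linarith

end Pool.Agent.Helper57.SI
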