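import Pool.Agent.Helper14.QZ.PR0
import Pool.Agent.Helper54.QZ.DT2
import Pool.Agent.Helper6.QZ.KW
import Pool.Agent.Helper66.QZ.VM1
import Pool.Agent.Helper77.QZ.DT1
import Pool.Agent.Helper82.QZ.VM3
import Pool.Agent.Helper89.QZ.BR
import Pool.Agent.Helper91.QZ.MS
import Pool.Agent.Helper73.SI.AW
import Pool.Agent.Helper81.SI.CM
import Pool.Agent.Helper11.SI.DL
import Pool.Agent.Helper94.SI.DU
import Pool.Agent.Helper68.SI.DW
import Pool.Agent.Helper17.SI.FJ0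
import Pool.Agent.Helper34.SI.FJ1
import Pool.Agent.Helper93.SI.FR
import Pool.Agent.Helper11.SI.KW3
import Pool.Agent.Helper63.SI.LB
import Pool.Agent.Helper77.SI.LK
import Pool.Agent.Helper3.SI.LOW
import Pool.Agent.Helper16.SI.MK
import Pool.Agent.Helper99.SI.MT
import Pool.Agent.Helper18.SI.NT
import Pool.Agent.Helper67.SI.OSC
import Pool.Agent.Helper57.SI.SI
import Pool.Agent.Helper17.SI.SOB
import Pool.Agent.Helper13.SI.TSQ
import Pool.Agent.Helper36.SI.TW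
import Pool.Agent.Helper91.SI.UEX
import Pool.Agent.Helper6.SI.UP
import Pool.Agent.Helper56.SI.UPD
import Pool.Agent.Helper78.SI.WI

/-!
# Assembly of the sheet on typical short intervals
-/

set_option autoImplicit false

namespace Pool.Agent.Helper57.SI

theorem a_dt1 : Pool.Agent.Helper57.QZ.ST_DT1 := Pool.Agent.Helper77.QZ.st_dt1
theorem a_dt2 : Pool.Agent.Helper57.QZ.ST_DT2 := Pool.Agent.Helper57.QZ.st_DT2
theorem a_osc : ST_OSC := Pool.Agent.Helper67.SI.st_OSC Pool.Agent.Helper93.SI.st_FR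
theorem a_wi : ST_WI := Pool.Agent.Helper78.SI.st_WI a_osc Pool.Agent.Helper34.SI.st_FJ1
theorem a_lb : ST_LB := Pool.Agent.Helper63.SI.st_LB a_wi
theorem a_kw3 : ST_KW3 := Pool.Agent.Helper11.SI.st_KW3 Pool.Agent.Helper6.QZ.st_kw1
theorem a_vm3 : Pool.Agent.Helper57.QZ.ST_VM3 :=
  Pool.Agent.Helper82.QZ.vm3_of Pool.Agent.Helper66.QZ.st_vm1
theorem a_uex : ST_UEX :=
  Pool.Agent.Helper91.SI.st_UEX Pool.Agent.Helper14.QZ.st_PR0 a_vm3
theorem a_upd : ST_UPD := Pool.Agent.Helper56.SI.st_UPD a_uex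
  Pool.Agent.Helper13.SI.st_TSQ Pool.Agent.Helper17.SI.st_SOB a_kw3 Pool.Agent.Helper16.SI.st_MK
theorem a_up : ST_UP := Pool.Agent.Helper6.SI.st_UP a_upd
theorem a_aw : ST_AW :=
  Pool.Agent.Helper73.SI.st_AW Pool.Agent.Helper57.QZ.st_MS Pool.Agent.Helper16.SI.st_MK
theorem a_low : ST_LOW := Pool.Agent.Helper3.SI.st_LOW Pool.Agent.Helper17.SI.st_FJ0 a_lb
  st_TW Pool.Agent.Helper13.SI.st_TSQ a_kw3 Pool.Agent.Helper16.SI.st_MK
theorem a_cm : ST_CM := Pool.Agent.Helper81.SI.st_CM Pool.Agent.Helper99.SI.st_MT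
  (Pool.Agent.Helper94.SI.st_DU a_dt1 a_dt2) (Pool.Agent.Helper11.SI.st_DL a_dt1)
  (Pool.Agent.Helper68.SI.st_DW a_dt2) (Pool.Agent.Helper77.SI.st_LK Pool.Agent.Helper57.QZ.st_br)
  a_up a_aw a_low
theorem a_si : ST_SI := st_SI (Pool.Agent.Helper18.SI.st_NT a_cm)

end Pool.Agent.Helper57.SI
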