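import Pool.Agent.Helper57.QZ.Stmts

/-!
# Definitions for the maxima over typical short intervals on the line Re s = 1
-/

set_option autoImplicit false

namespace Pool.Agent.Helper57.SI

open MeasureTheory Set Filter Topology
open Pool.Agent.Helper57.QZ (Pr tor circ aa Zy Wy Sy Vy Ky Fy pt lin)

/-- the supremum of `f` over the interval `[u, u + H]` -/
noncomputable def wsup (u H : ℝ) (f : ℝ → ℝ) : ℝ := sSup (f '' Icc u (u + H))

/-- the sum of `1/p` over `p ≤ x` -/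
noncomputable def P1 (x : ℕ) : ℝ := ∑ p ∈ Nat.primesBelow (x + 1), 1 / (p : ℝ)

/-- the sum of `log p / p` over `p ≤ x` -/
noncomputable def P2 (x : ℕ) : ℝ := ∑ p ∈ Nat.primesBelow (x + 1), Real.log p / (p : ℝ)

/-- the Fejér kernel -/
noncomputable def fej (K : ℕ) (x : ℝ) : ℝ :=
  ∑ k ∈ Finset.Icc (-(K : ℤ)) (K : ℤ), (1 - |(k : ℝ)| / K) * Real.cos ((k : ℝ) * x)

/-- the coefficients of `fej K x` -/
noncomputable def fc (K : ℕ) (k : ℤ) : ℝ := max 0 (1 - |(k : ℝ)| / K)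

/-- the coefficients of `fej K x * (1 - cos x)` -/
noncomputable def gc (K : ℕ) (k : ℤ) : ℝ := fc K k - (fc K (k - 1) + fc K (k + 1)) / 2

/-- the degree of the kernels -/
noncomputable def Kk (H : ℝ) : ℕ := ⌈Real.log (Real.log H)⌉₊

/-- the range of the primes that are controlled -/
noncomputable def zz (H : ℝ) : ℕ := ⌊Real.log H / (8 * (Kk H : ℝ))⌋₊

/-- the range of the primes that matter -/
noncomputable def ZZ (η H : ℝ) : ℕ := ⌊Real.log H ^ (1 + η)⌋₊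

/-- the weight -/
noncomputable def ww (z K : ℕ) (α t : ℝ) : ℝ := ∏ p : Pr z, fej K (t * Real.log ((p : ℕ) : ℝ) + α)

/-- the defect for `log |ζ|` -/
noncomputable def D1 (z : ℕ) (α t : ℝ) : ℝ :=
  ∑ p : Pr z, (1 - Real.cos (t * Real.log ((p : ℕ) : ℝ) + α)) / ((p : ℕ) : ℝ)

/-- the defect for `ζ'/ζ` -/
noncomputable def D2 (z : ℕ) (α t : ℝ) : ℝ :=
  ∑ p : Pr z, Real.log ((p : ℕ) : ℝ) * (1 - Real.cos (t * Real.log ((p : ℕ) : ℝ) + α)) /
    ((p : ℕ) : ℝ)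

/-- the sum of `(log p)^j / p * e^{-i φ_p}` over `x < p ≤ y` -/
noncomputable def tl (j y x : ℕ) (φ : Pr y → ℝ) : ℂ :=
  ∑ p : Pr y, if x < (p : ℕ) then
    ((Real.log ((p : ℕ) : ℝ) ^ j / ((p : ℕ) : ℝ) : ℝ) : ℂ) *
      Complex.exp (-((φ p : ℂ) * Complex.I)) else 0

/-- the weight as a function on the torus -/
noncomputable def wt (y z K : ℕ) (α : ℝ) (φ : Pr y → ℝ) : ℝ :=
  ∏ p : Pr y, if (p : ℕ) ≤ z then fej K (φ p + α) else 1

end Pool.Agent.Helper57.SI
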