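import Pool.Agent.Helper57.SI.Defs

/-!
# Statement sheet for the theorem on typical short intervals
-/

set_option autoImplicit false

namespace Pool.Agent.Helper57.SI

open MeasureTheory Set Filter Topology
open Pool.Agent.Helper57.QZ (Pr tor circ aa Zy Wy Sy Vy Ky Fy pt lin)

/-- a nonzero frequency is not small -/
def ST_FR : Prop := ∀ (z K : ℕ) (k : Pr z → ℤ), (∀ p, |k p| ≤ (K : ℤ)) → k ≠ 0 →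
  1 / (4 : ℝ) ^ (K * z) ≤ |∑ p : Pr z, (k p : ℝ) * Real.log ((p : ℕ) : ℝ)|

/-- the integral of a product of trigonometric polynomials over an interval -/
def ST_OSC : Prop := ∀ (z K : ℕ) (c : Pr z → ℤ → ℝ) (α u H : ℝ), 0 ≤ H →
  ‖(∫ t in u..(u + H), ∏ p : Pr z, ∑ k ∈ Finset.Icc (-(K : ℤ)) (K : ℤ),
      (c p k : ℂ) * Complex.exp ((((k : ℝ) * (t * Real.log ((p : ℕ) : ℝ) + α) : ℝ) : ℂ) *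
        Complex.I)) - ((H * ∏ p : Pr z, c p 0 : ℝ) : ℂ)‖ ≤
    2 * 4 ^ (K * z) * ∏ p : Pr z, ∑ k ∈ Finset.Icc (-(K : ℤ)) (K : ℤ), |c p k|

/-- the Fejér kernel is nonnegative -/
def ST_FJ0 : Prop := ∀ (K : ℕ) (x : ℝ), 1 ≤ K → 0 ≤ fej K x

/-- the Fourier expansions -/
def ST_FJ1 : Prop := ∀ K : ℕ, 1 ≤ K →
  (∀ x : ℝ, ((fej K x : ℝ) : ℂ) = ∑ k ∈ Finset.Icc (-((K + 1 : ℕ) : ℤ)) ((K + 1 : ℕ) : ℤ),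
    (fc K k : ℂ) * Complex.exp ((((k : ℝ) * x : ℝ) : ℂ) * Complex.I)) ∧
  (∀ x : ℝ, ((fej K x * (1 - Real.cos x) : ℝ) : ℂ) =
    ∑ k ∈ Finset.Icc (-((K + 1 : ℕ) : ℤ)) ((K + 1 : ℕ) : ℤ),
      (gc K k : ℂ) * Complex.exp ((((k : ℝ) * x : ℝ) : ℂ) * Complex.I)) ∧
  fc K 0 = 1 ∧ gc K 0 = 1 / K ∧ ∀ k : ℤ, |fc K k| ≤ 1 ∧ |gc K k| ≤ 2

/-- the weighted integrals of the weight and of the defects, for every interval -/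
def ST_WI : Prop := ∀ (z K : ℕ) (α u H : ℝ), 1 ≤ K → 0 ≤ H →
  |(∫ t in u..(u + H), ww z K α t) - H| ≤ 2 * 4 ^ ((K + 1) * z) * (2 * K + 3) ^ z ∧
  (∫ t in u..(u + H), ww z K α t * D1 z α t) ≤
    H * P1 z / K + 4 * 4 ^ ((K + 1) * z) * (2 * K + 3) ^ z * (z + 1) ∧
  (∫ t in u..(u + H), ww z K α t * D2 z α t) ≤
    H * P2 z / K + 4 * 4 ^ ((K + 1) * z) * (2 * K + 3) ^ z * (z + 1) ^ 2

/-- the lower bound for the weighted integral over every interval of length `H` -/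
def ST_LB : Prop := ∀ η : ℝ, 0 < η → ∃ H₀ : ℝ, ∀ H : ℝ, H₀ ≤ H → ∀ u α : ℝ,
  H / 2 ≤ ∫ t in u..(u + H), ww (zz H) (Kk H) α t *
    (1 - D1 (zz H) α t / η - D2 (zz H) α t / (η * Real.log (zz H)))

/-- the weighted second moment on the torus -/
def ST_TW : Prop := ∀ (y z K j : ℕ) (α : ℝ), 1 ≤ K →
  ∫ φ, wt y z K α φ * ‖tl j y z φ‖ ^ 2 ∂tor y ≤
    ∑ p : Pr y, if z < (p : ℕ) then
      (Real.log ((p : ℕ) : ℝ) ^ j / ((p : ℕ) : ℝ)) ^ 2 else 0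

/-- Weyl's theorem as an upper bound on a longer interval -/
def ST_KW3 : Prop := ∀ (y : ℕ) (G : (Pr y → ℝ) → ℝ), Continuous G → (∀ φ, 0 ≤ G φ) →
  (∀ (φ : Pr y → ℝ) (p : Pr y), G (Function.update φ p (φ p + 2 * Real.pi)) = G φ) →
  ∀ η : ℝ, 0 < η → ∃ T₀ : ℝ, 0 < T₀ ∧ ∀ T : ℝ, T₀ ≤ T →
    ∫ t in (T / 2)..(4 * T), G (lin y t) ≤ 4 * T * (∫ φ, G φ ∂tor y + η)

/-- Markov's inequality for the integrals over the intervals `[u - 1, u + H + 1]` -/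
def ST_MK : Prop := ∀ (f : ℝ → ℝ) (H c T : ℝ), 1 ≤ H → 0 < c → 2 * H + 4 ≤ T →
  ContinuousOn f (Icc (T / 2) (4 * T)) → (∀ t, 0 ≤ f t) →
  ∃ E : Set ℝ, E ⊆ Icc T (2 * T) ∧
    volume.real E ≤ (H + 2) / c * ∫ t in (T / 2)..(4 * T), f t ∧
    ∀ u ∈ Icc T (2 * T), u ∉ E → ∫ t in (u - 1)..(u + H + 1), f t ≤ c

/-- exponential moments on the torus -/
def ST_UEX : Prop := ∀ (y : ℕ) (c d : Pr y → ℝ) (α : ℝ),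
  ∫ φ, Real.exp (∑ p : Pr y, (c p * Real.cos (φ p + α) + d p * Real.sin (φ p + α))) ∂tor y ≤
    Real.exp (∑ p : Pr y, (c p ^ 2 + d p ^ 2))

/-- tails of convergent sums -/
def ST_TSQ : Prop := ∀ ε ∈ Ioo (0:ℝ) 1, ∃ C : ℝ, 0 < C ∧ ∀ y x : ℕ, 1 ≤ x →
  ∑ p : Pr y, (if x < (p : ℕ) then
    ((1 + Real.log ((p : ℕ) : ℝ)) ^ 2 / ((p : ℕ) : ℝ)) ^ 2 else 0) ≤
      C * (x : ℝ) ^ (-(1 - ε))

/-- a pointwise value against an integral -/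
def ST_SOB : Prop := ∀ (R R' : ℝ → ℝ) (l : ℝ), 0 < l → (∀ t, HasDerivAt R (R' t) t) →
  Continuous R' → ∀ t : ℝ, Real.exp (l * R t) ≤ ∫ s in t..(t + 1),
    (Real.exp (l * R s) + l * Real.exp (l * R s + R' s) + l * Real.exp (l * R s - R' s))

/-- the upper bound for the tails in one direction, at all points of almost all intervals -/
def ST_UPD : Prop := ∀ η ∈ Ioo (0:ℝ) 1, ∀ κ : ℝ, 0 < κ → ∀ j : ℕ, j ≤ 1 →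
  ∃ H₀ : ℝ, ∀ H : ℝ, H₀ ≤ H → ∀ (y : ℕ) (β : ℝ), ∃ T₀ : ℝ, 0 < T₀ ∧ ∀ T : ℝ, T₀ ≤ T →
  ∃ E : Set ℝ, E ⊆ Icc T (2 * T) ∧ volume.real E ≤ κ * T ∧
  ∀ u ∈ Icc T (2 * T), u ∉ E → ∀ t ∈ Icc u (u + H),
    (Complex.exp (-((β : ℂ) * Complex.I)) * tl j y (ZZ η H) (lin y t)).re ≤ η / 2

/-- the upper bound for the tails at all points of almost all intervals -/
def ST_UP : Prop := ∀ η ∈ Ioo (0:ℝ) 1, ∀ κ : ℝ, 0 < κ →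
  ∃ H₀ : ℝ, ∀ H : ℝ, H₀ ≤ H → ∀ y : ℕ, ∃ T₀ : ℝ, 0 < T₀ ∧ ∀ T : ℝ, T₀ ≤ T →
  ∃ E : Set ℝ, E ⊆ Icc T (2 * T) ∧ volume.real E ≤ κ * T ∧
  ∀ u ∈ Icc T (2 * T), u ∉ E → ∀ t ∈ Icc u (u + H),
    ‖tl 0 y (ZZ η H) (lin y t)‖ ≤ η ∧ ‖tl 1 y (ZZ η H) (lin y t)‖ ≤ η

/-- `Fy` and its derivative are small at all points of almost all intervals -/
def ST_AW : Prop := ∀ η ∈ Ioo (0:ℝ) 1, ∀ κ : ℝ, 0 < κ → ∀ H : ℝ, 1 ≤ H →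
  ∃ y₀ : ℕ, ∀ y : ℕ, y₀ ≤ y → ∃ T₀ : ℝ, 0 < T₀ ∧ ∀ T : ℝ, T₀ ≤ T →
  ∃ E : Set ℝ, E ⊆ Icc T (2 * T) ∧ volume.real E ≤ κ * T ∧
  ∀ u ∈ Icc T (2 * T), u ∉ E → ∀ t ∈ Icc u (u + H),
    ‖Fy y (pt 1 t)‖ ≤ η ∧ ‖deriv (Fy y) (pt 1 t)‖ ≤ η

/-- almost every interval contains a point with the phase `α` -/
def ST_LOW : Prop := ∀ η ∈ Ioo (0:ℝ) 1, ∀ κ : ℝ, 0 < κ →
  ∃ H₀ : ℝ, ∀ H : ℝ, H₀ ≤ H → ∀ (y : ℕ) (α : ℝ), zz H ≤ y →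
  ∃ T₀ : ℝ, 0 < T₀ ∧ ∀ T : ℝ, T₀ ≤ T →
  ∃ E : Set ℝ, E ⊆ Icc T (2 * T) ∧ volume.real E ≤ κ * T ∧
  ∀ u ∈ Icc T (2 * T), u ∉ E → ∃ t ∈ Icc u (u + H),
    D1 (zz H) α t ≤ η ∧ D2 (zz H) α t ≤ η * Real.log (zz H) ∧
    ‖tl 0 y (zz H) (lin y t)‖ ≤ η ∧ ‖tl 1 y (zz H) (lin y t)‖ ≤ η

/-- consequences of Mertens' theorem -/
def ST_MT : Prop := ∀ η ∈ Ioo (0:ℝ) 1, ∀ C : ℝ, ∃ H₀ : ℝ, ∀ H : ℝ, H₀ ≤ H →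
  3 ≤ H ∧ C ≤ Real.log (Real.log H) ∧ C ≤ (zz H : ℝ) ∧ zz H ≤ ZZ η H ∧
  0 ≤ Real.log (zz H) ∧ Real.log (zz H) ≤ Real.log (Real.log H) ∧
  P2 (ZZ η H) + C ≤ (1 + 2 * η) * Real.log (Real.log H) ∧
  (1 - η) * Real.log (Real.log H) ≤ P2 (zz H) - C ∧ P1 (ZZ η H) ≤ P1 (zz H) + 2 * η

/-- the upper bounds for the Euler product and its logarithmic derivative -/
def ST_DU : Prop := ∃ C : ℝ, ∀ (y x : ℕ) (φ : Pr y → ℝ) (η : ℝ),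
  ‖tl 0 y x φ‖ ≤ η → ‖tl 1 y x φ‖ ≤ η →
  ‖Zy y 1 φ‖ ≤ Real.exp (P1 x + Ky y 1 + η) ∧ ‖Wy y 1 φ‖ ≤ P2 x + C + η

/-- the lower bound for the Euler product -/
def ST_DL : Prop := ∃ C : ℝ, 0 < C ∧ ∀ (y z : ℕ) (t η : ℝ), 1 ≤ z → z ≤ y → D1 z 0 t ≤ η →
  ‖tl 0 y z (lin y t)‖ ≤ η →
  Real.exp (P1 z + Ky y 1 - 18 * η - C / Real.sqrt z) ≤ ‖Zy y 1 (lin y t)‖

/-- the lower bound for the logarithmic derivative of the Euler product in a direction -/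
def ST_DW : Prop := ∃ C : ℝ, 0 < C ∧ ∀ (y z : ℕ) (t θ η η' : ℝ), z ≤ y →
  D2 z (θ + Real.pi) t ≤ η' → ‖tl 1 y z (lin y t)‖ ≤ η →
  P2 z - η' - η - C ≤ (Complex.exp (-((θ : ℂ) * Complex.I)) * Wy y 1 (lin y t)).re

/-- from the Euler product to `ζ` -/
def ST_LK : Prop := ∀ (y : ℕ) (t η : ℝ), t ≠ 0 → 0 ≤ η → η ≤ 1 / 2 →
  ‖Fy y (pt 1 t)‖ ≤ η → ‖deriv (Fy y) (pt 1 t)‖ ≤ η →
  riemannZeta (pt 1 t) ≠ 0 ∧ (1 - η) * ‖Zy y 1 (lin y t)‖ ≤ ‖riemannZeta (pt 1 t)‖ ∧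
  ‖riemannZeta (pt 1 t)‖ ≤ (1 + η) * ‖Zy y 1 (lin y t)‖ ∧
  ‖deriv riemannZeta (pt 1 t) / riemannZeta (pt 1 t) - Wy y 1 (lin y t)‖ ≤ 2 * η

/-- the combination, for one direction -/
def ST_CM : Prop := ∀ δ ∈ Ioo (0:ℝ) 1, ∀ κ : ℝ, 0 < κ → ∃ H₀ : ℝ, ∀ H : ℝ, H₀ ≤ H →
  1 ≤ H ∧ 1 ≤ Real.log (Real.log H) ∧ ∃ A : ℝ, 0 < A ∧ ∀ θ : ℝ,
  ∃ T₀ : ℝ, 0 < T₀ ∧ ∀ T : ℝ, T₀ ≤ T →
  ∃ E : Set ℝ, E ⊆ Icc T (2 * T) ∧ volume.real E ≤ κ * T ∧ ∀ u ∈ Icc T (2 * T), u ∉ E →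
  (∀ t ∈ Icc u (u + H), riemannZeta (pt 1 t) ≠ 0 ∧ ‖riemannZeta (pt 1 t)‖ ≤ (1 + δ) * A ∧
    ‖deriv riemannZeta (pt 1 t) / riemannZeta (pt 1 t)‖ ≤
      (1 + δ) * Real.log (Real.log H)) ∧
  (∃ t ∈ Icc u (u + H), (1 - δ) * A ≤ ‖riemannZeta (pt 1 t)‖ ∧
    (1 - δ) * Real.log (Real.log H) ≤
      ‖deriv riemannZeta (pt 1 t) / riemannZeta (pt 1 t)‖) ∧
  ∃ t ∈ Icc u (u + H), (1 - δ) * Real.log (Real.log H) ≤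
    (Complex.exp (-((θ : ℂ) * Complex.I)) *
      (deriv riemannZeta (pt 1 t) / riemannZeta (pt 1 t))).re

/-- the combination, for all directions -/
def ST_NT : Prop := ∀ δ ∈ Ioo (0:ℝ) 1, ∃ H₀ : ℝ, ∀ H : ℝ, H₀ ≤ H →
  1 ≤ H ∧ 1 ≤ Real.log (Real.log H) ∧ ∃ A : ℝ, 0 < A ∧
  ∃ T₀ : ℝ, 0 < T₀ ∧ ∀ T : ℝ, T₀ ≤ T →
  ∃ E : Set ℝ, E ⊆ Icc T (2 * T) ∧ volume.real E ≤ δ * T ∧ ∀ u ∈ Icc T (2 * T), u ∉ E →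
  (∀ t ∈ Icc u (u + H), riemannZeta (pt 1 t) ≠ 0 ∧ ‖riemannZeta (pt 1 t)‖ ≤ (1 + δ) * A ∧
    ‖deriv riemannZeta (pt 1 t) / riemannZeta (pt 1 t)‖ ≤
      (1 + δ) * Real.log (Real.log H)) ∧
  (∃ t ∈ Icc u (u + H), (1 - δ) * A ≤ ‖riemannZeta (pt 1 t)‖ ∧
    (1 - δ) * Real.log (Real.log H) ≤
      ‖deriv riemannZeta (pt 1 t) / riemannZeta (pt 1 t)‖) ∧
  ∀ θ : ℝ, ∃ t ∈ Icc u (u + H), (1 - δ) * Real.log (Real.log H) ≤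
    (Complex.exp (-((θ : ℂ) * Complex.I)) *
      (deriv riemannZeta (pt 1 t) / riemannZeta (pt 1 t))).re

/-- the theorem on typical short intervals -/
def ST_SI : Prop := ∀ δ ∈ Ioo (0:ℝ) 1, ∃ H₀ : ℝ, ∀ H : ℝ, H₀ ≤ H →
  ∃ T₀ : ℝ, 0 < T₀ ∧ ∀ T : ℝ, T₀ ≤ T →
  ∃ E : Set ℝ, E ⊆ Icc T (2 * T) ∧ volume.real E ≤ δ * T ∧
  ∀ u ∈ Icc T (2 * T), u ∉ E → ∀ θ : ℝ,
  (1 - δ) * (wsup u H (fun t => ‖deriv riemannZeta (pt 1 t)‖) /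
      wsup u H (fun t => ‖riemannZeta (pt 1 t)‖)) ≤
    wsup u H (fun t => (Complex.exp (-((θ : ℂ) * Complex.I)) *
      (deriv riemannZeta (pt 1 t) / riemannZeta (pt 1 t))).re) ∧
  wsup u H (fun t => (Complex.exp (-((θ : ℂ) * Complex.I)) *
      (deriv riemannZeta (pt 1 t) / riemannZeta (pt 1 t))).re) ≤
    (1 + δ) * (wsup u H (fun t => ‖deriv riemannZeta (pt 1 t)‖) /
      wsup u H (fun t => ‖riemannZeta (pt 1 t)‖)) ∧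
  |wsup u H (fun t => (Complex.exp (-((θ : ℂ) * Complex.I)) *
      (deriv riemannZeta (pt 1 t) / riemannZeta (pt 1 t))).re) - Real.log (Real.log H)| ≤
    δ * Real.log (Real.log H)

end Pool.Agent.Helper57.SI
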